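import Mathlib

/-!
# Flatness by finite subsets
-/

set_option autoImplicit false

namespace Pool.Agent.Lib.MP_b197b4_ntKR

/-- A module whose finite subsets lie in flat submodules is flat. -/
theorem flat_of_forall_finset {A B : Type} [CommRing A] [AddCommGroup B] [Module A B]
    (h : ∀ s : Finset B, ∃ N : Submodule A B, (s : Set B) ⊆ N ∧ Module.Flat A N) :
    Module.Flat A B := by
  classical
  apply Module.Flat.of_forall_isTrivialRelation
  intro l f x hfx
  obtain ⟨N, hsN, hN⟩ := h (Finset.univ.image x)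
  have hx : ∀ i, x i ∈ N := fun i => hsN (by simp)
  have h1 : ∑ i, f i • (⟨x i, hx i⟩ : N) = 0 := by
    apply Subtype.ext
    rw [Submodule.coe_sum]
    simpa using hfx
  obtain ⟨κ, a, y, h2, h3⟩ := Module.Flat.isTrivialRelation_of_sum_smul_eq_zero h1
  refine ⟨κ, a, fun j => (y j : B), fun i => ?_, h3⟩
  have h4 := congrArg (fun z : N => (z : B)) (h2 i)
  simpa using h4

end Pool.Agent.Lib.MP_b197b4_ntKR
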