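import Mathlib

/-!
# Constant field extensions are unramified

`k` is a field, `k'` a separable algebraic extension, `A` a `k`-algebra and `S` a `k'`-algebra generated
by the image of `A`. For every prime ideal `P` of `S` and `p = P ∩ A` the ideals `P S_P` and `p S_P` are
equal.
-/

set_option autoImplicit false

open Polynomial

namespace Pool.Agent.Lib.MP_b197b4_ntKR

section Unr

variable {A S : Type*} [CommRing A] [CommRing S] [Algebra A S]

/-- Denominators. -/
theorem exists_clear (p : Ideal A) [p.IsPrime] (n : (FractionRing (A ⧸ p))[X]) :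
    ∃ d : A, d ∉ p ∧ ∃ n' : A[X],
      n'.map ((algebraMap (A ⧸ p) (FractionRing (A ⧸ p))).comp (Ideal.Quotient.mk p)) =
        C (algebraMap (A ⧸ p) (FractionRing (A ⧸ p)) (Ideal.Quotient.mk p d)) * n := by
  obtain ⟨b, hb0, hb⟩ := IsLocalization.integerNormalization_spec (nonZeroDivisors (A ⧸ p)) n
  obtain ⟨d, hd⟩ := Ideal.Quotient.mk_surjective (b : A ⧸ p)
  obtain ⟨n', hn'⟩ := Polynomial.map_surjective (Ideal.Quotient.mk p) Ideal.Quotient.mk_surjective
    (IsLocalization.integerNormalization (nonZeroDivisors (A ⧸ p)) n)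
  refine ⟨d, ?_, n', ?_⟩
  · intro h
    have h1 : (b : A ⧸ p) ≠ 0 := nonZeroDivisors.ne_zero hb0
    exact h1 (by rw [← hd]; exact Ideal.Quotient.eq_zero_iff_mem.2 h)
  · rw [← Polynomial.map_map, hn', hb, hd]
    ext i
    rw [coeff_smul, coeff_C_mul, Algebra.smul_def]

theorem exists_mul_mem {k : Type*} [Field k] [Algebra k A] [Algebra k S] [IsScalarTower k A S]
    (θ : S) (μ : k[X]) (hμ : μ.Separable) (hθ : aeval θ μ = 0) (P : Ideal S) [hP : P.IsPrime]
    (h : A[X]) (hy : aeval θ h ∈ P) :
    ∃ s : S, s ∉ P ∧ s * aeval θ h ∈ (P.comap (algebraMap A S)).map (algebraMap A S) := by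
  classical
  set p : Ideal A := P.comap (algebraMap A S) with hp
  have hpp : p.IsPrime := Ideal.comap_isPrime _ _
  let κ := FractionRing (A ⧸ p)
  let L := FractionRing (S ⧸ P)
  let toκ : A →+* κ := (algebraMap (A ⧸ p) κ).comp (Ideal.Quotient.mk p)
  let toL : S →+* L := (algebraMap (S ⧸ P) L).comp (Ideal.Quotient.mk P)
  let φ₀ : A ⧸ p →+* S ⧸ P := Ideal.quotientMap P (algebraMap A S) le_rfl
  have hφ₀ : Function.Injective φ₀ := Ideal.quotientMap_injective
  let φ₁ : A ⧸ p →+* L := (algebraMap (S ⧸ P) L).comp φ₀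
  have hφ₁ : Function.Injective φ₁ := (IsFractionRing.injective (S ⧸ P) L).comp hφ₀
  let ψ : κ →+* L := IsFractionRing.lift (A := A ⧸ p) (K := κ) (L := L) (g := φ₁) hφ₁
  have hψ : ψ.comp toκ = toL.comp (algebraMap A S) := by
    ext a
    change ψ (algebraMap (A ⧸ p) κ (Ideal.Quotient.mk p a)) = _
    rw [IsFractionRing.lift_algebraMap]
    rfl
  have htoκ : ∀ a : A, toκ a = 0 ↔ a ∈ p := by
    intro a
    change algebraMap (A ⧸ p) κ (Ideal.Quotient.mk p a) = 0 ↔ _
    rw [FaithfulSMul.algebraMap_eq_zero_iff, Ideal.Quotient.eq_zero_iff_mem]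
  have htoL : ∀ x : S, toL x = 0 ↔ x ∈ P := by
    intro a
    change algebraMap (S ⧸ P) L (Ideal.Quotient.mk P a) = 0 ↔ _
    rw [FaithfulSMul.algebraMap_eq_zero_iff, Ideal.Quotient.eq_zero_iff_mem]
  let E : κ[X] →+* L := eval₂RingHom ψ (toL θ)
  have hE : ∀ f : A[X], E (f.map toκ) = toL (aeval θ f) := by
    intro f
    change eval₂ ψ (toL θ) (f.map toκ) = _
    rw [eval₂_map, hψ, aeval_def, hom_eval₂]
  have hker : ∀ f : A[X], f.map toκ = 0 → aeval θ f ∈ p.map (algebraMap A S) := by
    intro f hf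
    have h1 : f ∈ p.map (C : A →+* A[X]) := by
      rw [Ideal.mem_map_C_iff]
      intro i
      have h2 := congrArg (fun g => coeff g i) hf
      simp only [coeff_map, coeff_zero] at h2
      exact (htoκ _).1 h2
    have h2 := Ideal.mem_map_of_mem (aeval (R := A) θ).toRingHom h1
    rw [Ideal.map_map] at h2
    have h3 : (aeval (R := A) θ).toRingHom.comp C = algebraMap A S := by
      ext a
      simp
    rw [h3] at h2
    exact h2
  -- the polynomials over `κ`
  set μA : A[X] := μ.map (algebraMap k A) with hμA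
  set μκ : κ[X] := μA.map toκ with hμκ
  set hκ : κ[X] := h.map toκ with hhκ
  have hsep : μκ.Separable := (hμ.map).map
  have hEμ : E μκ = 0 := by
    rw [hμκ, hE, hμA, aeval_map_algebraMap, hθ, map_zero]
  have hEh : E hκ = 0 := by
    rw [hhκ, hE, htoL]
    exact hy
  obtain ⟨n, hn⟩ := EuclideanDomain.gcd_dvd_left μκ hκ
  obtain ⟨q, hq⟩ := EuclideanDomain.gcd_dvd_right μκ hκ
  set g := EuclideanDomain.gcd μκ hκ with hg
  have hEg : E g = 0 := by
    rw [hg, EuclideanDomain.gcd_eq_gcd_ab, map_add, map_mul, map_mul, hEμ, hEh, zero_mul, zero_mul,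
      add_zero]
  have hcop : IsCoprime g n := by
    rw [hn] at hsep
    exact hsep.isCoprime
  have hEn : E n ≠ 0 := by
    intro h0
    obtain ⟨u, v, huv⟩ := hcop
    have h1 := congrArg E huv
    rw [map_add, map_mul, map_mul, hEg, h0, mul_zero, mul_zero, add_zero, map_one] at h1
    exact zero_ne_one h1
  obtain ⟨d, hd, n', hn'⟩ := exists_clear p n
  obtain ⟨e, he, q', hq'⟩ := exists_clear p q
  have key : aeval θ (C e * n' * h - C d * μA * q') ∈ p.map (algebraMap A S) := by
    apply hker
    rw [Polynomial.map_sub, Polynomial.map_mul, Polynomial.map_mul, Polynomial.map_mul,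
      Polynomial.map_mul, map_C, map_C]
    change C (toκ e) * n'.map toκ * hκ - C (toκ d) * μκ * q'.map toκ = 0
    have h1 : n'.map toκ = C (toκ d) * n := hn'
    have h2 : q'.map toκ = C (toκ e) * q := hq'
    rw [h1, h2]
    have h3 : n * hκ = μκ * q := by
      calc n * hκ = n * (g * q) := by rw [← hq]
        _ = (g * n) * q := by ring
        _ = μκ * q := by rw [← hn]
    linear_combination (C (toκ e) * C (toκ d)) * h3
  have hev : aeval θ (C e * n' * h - C d * μA * q') =
      (algebraMap A S e * aeval θ n') * aeval θ h := by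
    rw [map_sub, map_mul, map_mul, map_mul, map_mul, aeval_C, hμA, aeval_map_algebraMap, hθ]
    ring
  rw [hev] at key
  refine ⟨algebraMap A S e * aeval θ n', ?_, key⟩
  intro hmem
  rcases hP.mem_or_mem hmem with h1 | h1
  · exact he h1
  · have h2 : toL (aeval θ n') = 0 := (htoL _).2 h1
    rw [← hE] at h2
    have h3 : n'.map toκ = C (toκ d) * n := hn'
    rw [h3, map_mul] at h2
    have h4 : E (C (toκ d)) = ψ (toκ d) := by
      change eval₂ ψ (toL θ) (C (toκ d)) = _
      rw [eval₂_C]
    rw [h4] at h2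
    rcases mul_eq_zero.1 h2 with h5 | h5
    · have h6 : toκ d = 0 := (map_eq_zero ψ).1 h5
      exact hd ((htoκ _).1 h6)
    · exact hEn h5

end Unr

section Prim

variable {k k' : Type*} [Field k] [Field k'] [Algebra k k'] [Algebra.IsSeparable k k']

/-- Finitely many elements are polynomials in one element. -/
theorem exists_prim (s : Finset k') : ∃ θ : k', ∀ c ∈ s, ∃ q : k[X], aeval θ q = c := by
  let L := IntermediateField.adjoin k (s : Set k')
  have hint : ∀ x ∈ (s : Set k'), IsIntegral k x := fun x _ =>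
    (Algebra.IsAlgebraic.isAlgebraic x).isIntegral
  have : FiniteDimensional k L := IntermediateField.finiteDimensional_adjoin hint
  have : Algebra.IsSeparable k L := Algebra.isSeparable_tower_bot_of_isSeparable k L k'
  obtain ⟨θ, hθ⟩ := Field.exists_primitive_element k L
  refine ⟨(θ : k'), fun c hc => ?_⟩
  have hcL : c ∈ L := IntermediateField.subset_adjoin k _ hc
  have h1 : (⟨c, hcL⟩ : L) ∈ IntermediateField.adjoin k {θ} := by
    rw [hθ]; trivial
  have hθi : IsIntegral k θ := Algebra.IsIntegral.isIntegral θ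
  have h2 : (⟨c, hcL⟩ : L) ∈ (IntermediateField.adjoin k {θ}).toSubalgebra := h1
  rw [IntermediateField.adjoin_simple_toSubalgebra_of_isAlgebraic hθi.isAlgebraic,
    Algebra.adjoin_singleton_eq_range_aeval] at h2
  obtain ⟨q, hq⟩ := h2
  refine ⟨q, ?_⟩
  have h3 := congrArg (fun z : L => (z : k')) hq
  simp only at h3
  rw [← h3]
  exact (aeval_algebraMap_apply k' θ q).trans rfl

variable {A S : Type*} [CommRing A] [CommRing S] [Algebra A S] [Algebra k A] [Algebra k S]
  [IsScalarTower k A S] [Algebra k' S] [IsScalarTower k k' S]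

variable (k) in
include k in
theorem exists_form (y : S) (hy : y ∈ Algebra.adjoin k' (Set.range (algebraMap A S))) :
    ∃ (θ : k') (h : A[X]), aeval (algebraMap k' S θ) h = y := by
  have hcl : (Submonoid.closure (Set.range (algebraMap A S)) : Set S) =
      Set.range (algebraMap A S) := by
    have h1 : Submonoid.closure (Set.range (algebraMap A S)) = MonoidHom.mrange
        ((algebraMap A S : A →+* S) : A →* S) := by
      apply le_antisymm
      · rw [Submonoid.closure_le]
        rintro _ ⟨a, rfl⟩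
        exact ⟨a, rfl⟩
      · rintro _ ⟨a, rfl⟩
        exact Submonoid.subset_closure ⟨a, rfl⟩
    rw [h1]
    rfl
  rw [← Subalgebra.mem_toSubmodule, Algebra.adjoin_eq_span, hcl] at hy
  obtain ⟨f, t, hts, -, hf⟩ := Submodule.mem_span_iff_exists_finset_subset.1 hy
  classical
  obtain ⟨θ, hθ⟩ := exists_prim (k := k) (t.image f)
  have h1 : ∀ x ∈ t, ∃ (q : k[X]) (a : A), aeval θ q = f x ∧ algebraMap A S a = x := by
    intro x hx
    obtain ⟨q, hq⟩ := hθ (f x) (Finset.mem_image_of_mem f hx)
    obtain ⟨a, ha⟩ := hts hx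
    exact ⟨q, a, hq, ha⟩
  choose! q a hqa using h1
  refine ⟨θ, ∑ x ∈ t, C (a x) * (q x).map (algebraMap k A), ?_⟩
  rw [map_sum, ← hf]
  refine Finset.sum_congr rfl fun x hx => ?_
  rw [map_mul, aeval_C, (hqa x hx).2, aeval_map_algebraMap, aeval_algebraMap_apply, (hqa x hx).1,
    Algebra.smul_def, mul_comm]

end Prim

end Pool.Agent.Lib.MP_b197b4_ntKR
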