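import Mathlib
import Pool.Agent.Lib.MP_b197b4_ntK.Ufd
import Pool.Agent.Lib.MP_b197b4_ntKR.Unr

/-!
# Unramified integral extensions of regular rings

Regular domains of dimension two are integrally closed; an extension with going down and
`P S_P = p S_P` for all prime ideals of a regular ring is regular.
-/

set_option autoImplicit false

namespace Pool.Agent.Lib.MP_b197b4_ntKR

open IsLocalRing

/-- regular domains of dimension two are integrally closed -/
theorem isIntegrallyClosed_of_regular {A : Type*} [CommRing A] [IsDomain A] [IsRegularRing A]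
    (hA : ∀ m : Ideal A, m.IsMaximal → m.height = 2) : IsIntegrallyClosed A := by
  apply IsIntegrallyClosed.of_localization_maximal
  intro m hm0 hm
  let O := Localization.AtPrime m
  have hreg : IsRegularLocalRing O := inferInstance
  have hdim : ringKrullDim O = 2 := by
    rw [IsLocalization.AtPrime.ringKrullDim_eq_height m O, hA m hm]
    rfl
  have hsp : (maximalIdeal O).spanFinrank = 2 := by
    have h1 := IsRegularLocalRing.spanFinrank_maximalIdeal (R := O)
    rw [hdim] at h1
    exact_mod_cast h1
  have hfg : (maximalIdeal O).FG := IsNoetherian.noetherian _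
  have h2 := Submodule.FG.generators_ncard hfg
  rw [hsp] at h2
  obtain ⟨x, z, hxz, h⟩ := Set.ncard_eq_two.1 h2
  have hxz : maximalIdeal O = Ideal.span {x, z} := by
    rw [← h]
    exact (Submodule.span_generators _).symm
  have hufd : UniqueFactorizationMonoid O := by
    refine Pool.Agent.K1.factorial hxz ?_
    intro w hw N hN
    have hmin : maximalIdeal O ∈ (Ideal.span {w}).minimalPrimes := by
      refine ⟨⟨inferInstance, (Ideal.span_singleton_le_iff_mem _).2 hw⟩, ?_⟩
      rintro Q ⟨hQ, hwQ⟩ -
      exact Ideal.IsPrime.le_of_pow_le (hN.trans hwQ)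
    have h3 := Ideal.height_le_one_of_isPrincipal_of_mem_minimalPrimes _ _ hmin
    have h4 : ((maximalIdeal O).height : WithBot ℕ∞) = 2 := by
      rw [IsLocalRing.maximalIdeal_height_eq_ringKrullDim, hdim]
    have h5 : ((maximalIdeal O).height : WithBot ℕ∞) ≤ (1 : ℕ∞) := WithBot.coe_le_coe.2 h3
    rw [h4] at h5
    have h6 : ((2 : ℕ∞) : WithBot ℕ∞) ≤ ((1 : ℕ∞) : WithBot ℕ∞) := h5
    rw [WithBot.coe_le_coe] at h6
    exact absurd h6 (by decide)
  infer_instance

section

variable {R S : Type*} [CommRing R] [CommRing S] [Algebra R S]

/-- The height does not change. -/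
theorem height_eq_of_unramified [IsNoetherianRing R] [IsNoetherianRing S] [Algebra.HasGoingDown R S]
    (h : ∀ (P : Ideal S) [P.IsPrime], ∀ y ∈ P, ∃ s : S, s ∉ P ∧
      s * y ∈ (P.comap (algebraMap R S)).map (algebraMap R S)) (P : Ideal S) [hP : P.IsPrime] :
    P.height = (P.comap (algebraMap R S)).height := by
  set p := P.comap (algebraMap R S) with hp
  have hpp : p.IsPrime := Ideal.comap_isPrime _ _
  have hlo : P.LiesOver p := ⟨rfl⟩
  rw [Ideal.height_eq_height_add_of_liesOver_of_hasGoingDown p P]
  have hle : p.map (algebraMap R S) ≤ P := Ideal.map_comap_le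
  have hker : RingHom.ker (Ideal.Quotient.mk (p.map (algebraMap R S))) ≤ P := by
    rw [Ideal.mk_ker]
    exact hle
  have hprime : (P.map (Ideal.Quotient.mk (p.map (algebraMap R S)))).IsPrime :=
    Ideal.map_isPrime_of_surjective Ideal.Quotient.mk_surjective hker
  have h0 : (P.map (Ideal.Quotient.mk (p.map (algebraMap R S)))).height = 0 := by
    rw [Ideal.height_eq_zero_iff]
    refine ⟨⟨hprime, bot_le⟩, ?_⟩
    rintro Q ⟨hQ, -⟩ hQle
    rw [Ideal.map_le_iff_le_comap]
    intro y hy
    rw [Ideal.mem_comap]
    obtain ⟨s, hs, hsy⟩ := h P y hy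
    have h1 : Ideal.Quotient.mk (p.map (algebraMap R S)) s *
        Ideal.Quotient.mk (p.map (algebraMap R S)) y = 0 := by
      rw [← map_mul]
      exact Ideal.Quotient.eq_zero_iff_mem.2 hsy
    have h2 : Ideal.Quotient.mk (p.map (algebraMap R S)) s *
        Ideal.Quotient.mk (p.map (algebraMap R S)) y ∈ Q := by
      rw [h1]
      exact Q.zero_mem
    rcases hQ.mem_or_mem h2 with h3 | h3
    · exfalso
      apply hs
      have h4 := hQle h3
      have h5 : s ∈ (P.map (Ideal.Quotient.mk (p.map (algebraMap R S)))).comap
          (Ideal.Quotient.mk (p.map (algebraMap R S))) := h4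
      rw [Ideal.comap_map_of_surjective _ Ideal.Quotient.mk_surjective] at h5
      have h6 : Ideal.comap (Ideal.Quotient.mk (p.map (algebraMap R S))) ⊥ ≤ P := hker
      rwa [sup_eq_left.2 h6] at h5
    · exact h3
  rw [h0, add_zero]

theorem isRegularRing_of_unramified [IsNoetherianRing S] [IsRegularRing R]
    [Algebra.HasGoingDown R S]
    (h : ∀ (P : Ideal S) [P.IsPrime], ∀ y ∈ P, ∃ s : S, s ∉ P ∧
      s * y ∈ (P.comap (algebraMap R S)).map (algebraMap R S)) : IsRegularRing S := by
  rw [isRegularRing_iff]
  intro P hP
  set p := P.comap (algebraMap R S) with hp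
  have hpp : p.IsPrime := Ideal.comap_isPrime _ _
  let f : Localization.AtPrime p →+* Localization.AtPrime P :=
    Localization.localRingHom p P (algebraMap R S) hp
  have hreg : IsRegularLocalRing (Localization.AtPrime p) := inferInstance
  have hmap : maximalIdeal (Localization.AtPrime P) =
      (maximalIdeal (Localization.AtPrime p)).map f := by
    apply le_antisymm
    · rw [← Localization.AtPrime.map_eq_maximalIdeal, Ideal.map_le_iff_le_comap]
      intro y hy
      rw [Ideal.mem_comap]
      obtain ⟨s, hs, hsy⟩ := h P y hy
      have h1 : algebraMap S (Localization.AtPrime P) (s * y) ∈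
          (maximalIdeal (Localization.AtPrime p)).map f := by
        have h2 := Ideal.mem_map_of_mem (algebraMap S (Localization.AtPrime P)) hsy
        rw [Ideal.map_map] at h2
        have h3 : (algebraMap S (Localization.AtPrime P)).comp (algebraMap R S) =
            f.comp (algebraMap R (Localization.AtPrime p)) := by
          ext a
          simp only [RingHom.comp_apply]
          exact (Localization.localRingHom_to_map p P (algebraMap R S) hp a).symm
        rw [h3, ← Ideal.map_map, Localization.AtPrime.map_eq_maximalIdeal] at h2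
        exact h2
      rw [map_mul] at h1
      have hu : IsUnit (algebraMap S (Localization.AtPrime P) s) :=
        IsLocalization.map_units (Localization.AtPrime P) (⟨s, hs⟩ : P.primeCompl)
      exact (Ideal.unit_mul_mem_iff_mem _ hu).1 h1
    · rw [Ideal.map_le_iff_le_comap]
      have := Localization.isLocalHom_localRingHom p P (algebraMap R S) hp
      exact (((IsLocalRing.local_hom_TFAE f).out 0 3).1 this)
  apply IsRegularLocalRing.of_spanFinrank_maximalIdeal_le
  have hfg : (maximalIdeal (Localization.AtPrime p)).FG := IsNoetherian.noetherian _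
  have h1 : (maximalIdeal (Localization.AtPrime P)).spanFinrank ≤
      (maximalIdeal (Localization.AtPrime p)).spanFinrank := by
    have h2 : maximalIdeal (Localization.AtPrime P) =
        Ideal.span (f '' (Submodule.generators (maximalIdeal (Localization.AtPrime p)))) := by
      rw [hmap, ← Ideal.map_span]
      congr 1
      exact (Submodule.span_generators _).symm
    rw [h2, ← Submodule.FG.generators_ncard hfg]
    refine le_trans (Submodule.spanFinrank_span_le_ncard_of_finite
      ((Submodule.FG.finite_generators hfg).image f)) ?_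
    exact Set.ncard_image_le (Submodule.FG.finite_generators hfg)
  calc (((maximalIdeal (Localization.AtPrime P)).spanFinrank : ℕ) : WithBot ℕ∞)
      ≤ (((maximalIdeal (Localization.AtPrime p)).spanFinrank : ℕ) : WithBot ℕ∞) := by
        exact_mod_cast h1
    _ = ringKrullDim (Localization.AtPrime p) := IsRegularLocalRing.spanFinrank_maximalIdeal
    _ = p.height := IsLocalization.AtPrime.ringKrullDim_eq_height p _
    _ = P.height := by rw [height_eq_of_unramified h P]
    _ = ringKrullDim (Localization.AtPrime P) :=
        (IsLocalization.AtPrime.ringKrullDim_eq_height P _).symm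

end

end Pool.Agent.Lib.MP_b197b4_ntKR
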