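import Mathlib
import Pool.Agent.Lib.MP_b197b4_ntKD.BC
import Pool.Agent.Lib.MP_b197b4_ntKR.Reg
import Pool.Agent.Lib.MP_b197b4_ntKR.Flat

/-!
# Charts after an extension of the field of constants

`k'` is a separable algebraic extension of the field `k`, `A` a chart of `F` over `k` and `K = k' F`.
Then the ring `k' A` is a chart of `K` over `k'`, integral, flat and unramified over `A`.
-/

set_option autoImplicit false

namespace Pool.Agent.Lib.MP_b197b4_ntKR

open Pool.Agent.Lib.MP_b197b4_ntK Pool.Agent.Lib.MP_b197b4_ntKD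

variable {k F : Type} [Field k] [Field F] [Algebra k F]

section

variable (k' K : Type) [Field k'] [Field K] [Algebra k' K] [Algebra F K]

variable {k' K}

theorem mem_bc {A : Subalgebra k F} {a : F} (ha : a ∈ A) : algebraMap F K a ∈ bc k' K A :=
  Algebra.subset_adjoin ⟨a, ha, rfl⟩

variable (k' K) in
/-- `A → k' A` -/
def bcMap (A : Subalgebra k F) : A →+* bc k' K A :=
  ((algebraMap F K).comp (A.val : A →+* F)).codRestrict (bc k' K A) fun a => mem_bc a.2

theorem bcMap_coe (A : Subalgebra k F) (a : A) : (bcMap k' K A a : K) = algebraMap F K (a : F) := rfl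

theorem bcMap_injective (A : Subalgebra k F) : Function.Injective (bcMap k' K A) := by
  intro a b hab
  have h1 := congrArg (fun z : bc k' K A => (z : K)) hab
  simp only [bcMap_coe] at h1
  exact Subtype.ext ((algebraMap F K).injective h1)

theorem adjoin_range (A : Subalgebra k F) :
    Algebra.adjoin k' (Set.range (bcMap k' K A)) = ⊤ := by
  have h := Algebra.adjoin_adjoin_coe_preimage (R := k') (s := algebraMap F K '' (A : Set F))
  have h1 : ((↑) : Algebra.adjoin k' (algebraMap F K '' (A : Set F)) → K) ⁻¹'
      (algebraMap F K '' (A : Set F)) = Set.range (bcMap k' K A) := by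
    ext x
    constructor
    · rintro ⟨a, ha, hax⟩
      exact ⟨⟨a, ha⟩, Subtype.ext hax⟩
    · rintro ⟨a, rfl⟩
      exact ⟨(a : F), a.2, rfl⟩
  rw [h1] at h
  exact h

end

variable {k' K : Type} [Field k'] [Field K] [Algebra k k'] [Algebra k' K] [Algebra F K]
  [Algebra k K] [IsScalarTower k k' K] [IsScalarTower k F K]

theorem bc_fg {A : Subalgebra k F} (hA : A.FG) : (bc k' K A).FG := by
  classical
  obtain ⟨s, hs⟩ := hA
  refine ⟨s.image (algebraMap F K), ?_⟩
  apply le_antisymm
  · rw [Algebra.adjoin_le_iff]
    intro x hx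
    rw [Finset.coe_image] at hx
    obtain ⟨a, ha, rfl⟩ := hx
    refine mem_bc ?_
    rw [← hs]
    exact Algebra.subset_adjoin ha
  · rw [bc, Algebra.adjoin_le_iff]
    rintro _ ⟨a, ha, rfl⟩
    have ha' : a ∈ Algebra.adjoin k (s : Set F) := by rw [hs]; exact ha
    induction ha' using Algebra.adjoin_induction with
    | mem x hx =>
      apply Algebra.subset_adjoin
      rw [Finset.coe_image]
      exact ⟨x, hx, rfl⟩
    | algebraMap r =>
      have h1 : algebraMap F K (algebraMap k F r) = algebraMap k' K (algebraMap k k' r) := by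
        rw [← IsScalarTower.algebraMap_apply, ← IsScalarTower.algebraMap_apply]
      rw [h1]
      exact Subalgebra.algebraMap_mem _ _
    | add x y hx hy ihx ihy =>
      rw [map_add]
      exact Subalgebra.add_mem _ (ihx (by rw [← hs]; exact hx)) (ihy (by rw [← hs]; exact hy))
    | mul x y hx hy ihx ihy =>
      rw [map_mul]
      exact Subalgebra.mul_mem _ (ihx (by rw [← hs]; exact hx)) (ihy (by rw [← hs]; exact hy))

omit [Algebra k k'] [Algebra k K] [IsScalarTower k k' K] [IsScalarTower k F K] in
theorem bc_frac (hK : ∀ x : K, x ∈ Algebra.adjoin F (Set.range (algebraMap k' K)))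
    {A : Subalgebra k F} (hA : IsFractionRing A F) : IsFractionRing (bc k' K A) K := by
  apply IsFractionRing.of_field
  intro z
  have hz := hK z
  have key : ∃ x ∈ bc k' K A, ∃ y ∈ bc k' K A, y ≠ 0 ∧ z = x / y := by
    induction hz using Algebra.adjoin_induction with
    | algebraMap f =>
      obtain ⟨a, b, hb, rfl⟩ := IsFractionRing.div_surjective (A := A) f
      have hb0 : (b : F) ≠ 0 := by
        intro h
        exact nonZeroDivisors.ne_zero hb (Subtype.ext h)
      refine ⟨algebraMap F K a, mem_bc a.2, algebraMap F K b, mem_bc b.2, ?_, ?_⟩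
      · rwa [Ne, map_eq_zero]
      · rw [map_div₀]
        rfl
    | mem x hx =>
      obtain ⟨r, rfl⟩ := hx
      exact ⟨algebraMap k' K r, Subalgebra.algebraMap_mem _ _, 1, Subalgebra.one_mem _,
        one_ne_zero, (div_one _).symm⟩
    | add x y hx hy ihx ihy =>
      obtain ⟨a, ha, b, hb, hb0, rfl⟩ := ihx
      obtain ⟨c, hc, d, hd, hd0, rfl⟩ := ihy
      exact ⟨a * d + b * c, Subalgebra.add_mem _ (Subalgebra.mul_mem _ ha hd)
        (Subalgebra.mul_mem _ hb hc), b * d, Subalgebra.mul_mem _ hb hd, mul_ne_zero hb0 hd0,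
        div_add_div _ _ hb0 hd0⟩
    | mul x y hx hy ihx ihy =>
      obtain ⟨a, ha, b, hb, hb0, rfl⟩ := ihx
      obtain ⟨c, hc, d, hd, hd0, rfl⟩ := ihy
      exact ⟨a * c, Subalgebra.mul_mem _ ha hc, b * d, Subalgebra.mul_mem _ hb hd,
        mul_ne_zero hb0 hd0, div_mul_div_comm _ _ _ _⟩
  obtain ⟨x, hx, y, hy, -, h⟩ := key
  exact ⟨⟨x, hx⟩, ⟨y, hy⟩, h⟩

variable (k' K) in
/-- `k' A` as an `A`-algebra -/
abbrev bcAlg (A : Subalgebra k F) : Algebra A (bc k' K A) := (bcMap k' K A).toAlgebra

attribute [local instance] bcAlg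

theorem bc_tower (A : Subalgebra k F) : IsScalarTower k A (bc k' K A) := by
  apply IsScalarTower.of_algebraMap_eq
  intro x
  apply Subtype.ext
  change algebraMap k K x = algebraMap F K (algebraMap k F x)
  rw [← IsScalarTower.algebraMap_apply]

omit [Algebra k k'] [Algebra k K] [IsScalarTower k k' K] [IsScalarTower k F K] in
theorem bc_faithful (A : Subalgebra k F) : FaithfulSMul A (bc k' K A) := by
  rw [faithfulSMul_iff_algebraMap_injective]
  exact bcMap_injective A

section

variable [Algebra.IsSeparable k k']

/-- every element of `k' A` is `h(θ)` -/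
theorem bc_form {A : Subalgebra k F} (y : bc k' K A) : ∃ (θ : k') (h : Polynomial A),
    Polynomial.aeval (algebraMap k' (bc k' K A) θ) h = y := by
  have := bc_tower (k' := k') (K := K) A
  have htop : Algebra.adjoin k' (Set.range (algebraMap A (bc k' K A))) = ⊤ := adjoin_range A
  exact exists_form k y (by rw [htop]; trivial)

theorem bc_isIntegral_const {A : Subalgebra k F} (θ : k') :
    IsIntegral A (algebraMap k' (bc k' K A) θ) := by
  have := bc_tower (k' := k') (K := K) A
  have h1 : IsIntegral k θ := (Algebra.IsAlgebraic.isAlgebraic θ).isIntegral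
  have h2 : IsIntegral k (algebraMap k' (bc k' K A) θ) := h1.algebraMap
  exact h2.tower_top

theorem bc_isIntegral (A : Subalgebra k F) : Algebra.IsIntegral A (bc k' K A) := by
  constructor
  intro y
  obtain ⟨θ, h, rfl⟩ := bc_form y
  have h3 : IsIntegral A (algebraMap k' (bc k' K A) θ) := bc_isIntegral_const θ
  have h4 : Polynomial.aeval (algebraMap k' (bc k' K A) θ) h ∈
      integralClosure A (bc k' K A) := by
    have h5 := (Polynomial.aeval (⟨_, h3⟩ : integralClosure A (bc k' K A)) h).2
    rwa [Polynomial.aeval_subalgebra_coe] at h5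
  exact h4

theorem bc_unramified (A : Subalgebra k F) (P : Ideal (bc k' K A)) [P.IsPrime]
    (y : bc k' K A) (hy : y ∈ P) : ∃ s : bc k' K A, s ∉ P ∧
      s * y ∈ (P.comap (algebraMap A (bc k' K A))).map (algebraMap A (bc k' K A)) := by
  have := bc_tower (k' := k') (K := K) A
  obtain ⟨θ, h, rfl⟩ := bc_form y
  have hsep : (minpoly k θ).Separable := (Algebra.IsSeparable.isSeparable k θ)
  refine exists_mul_mem (k := k) (algebraMap k' (bc k' K A) θ) (minpoly k θ) hsep ?_ P h hy
  rw [Polynomial.aeval_algebraMap_apply, minpoly.aeval, map_zero]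

/-- `k' A` is flat over `A` if `A` is integrally closed. -/
theorem bc_flat {A : Subalgebra k F} (hA : IsIntegrallyClosed A) : Module.Flat A (bc k' K A) := by
  classical
  have hfaith := bc_faithful (k' := k') (K := K) A
  have htow := bc_tower (k' := k') (K := K) A
  apply flat_of_forall_finset
  intro s
  choose θ h hθ using fun y : bc k' K A => bc_form y
  obtain ⟨η, hη⟩ := exists_prim (k := k) (s.image θ)
  have hint : IsIntegral A (algebraMap k' (bc k' K A) η) := bc_isIntegral_const η
  refine ⟨Subalgebra.toSubmodule (Algebra.adjoin A {algebraMap k' (bc k' K A) η}), ?_, ?_⟩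
  · intro y hy
    obtain ⟨q, hq⟩ := hη (θ y) (Finset.mem_image_of_mem θ hy)
    have h1 : algebraMap k' (bc k' K A) (θ y) ∈
        Algebra.adjoin A {algebraMap k' (bc k' K A) η} := by
      rw [← hq, ← Polynomial.aeval_algebraMap_apply, ← Polynomial.aeval_map_algebraMap A]
      exact Polynomial.aeval_mem_adjoin_singleton _ _
    have h2 : y ∈ Algebra.adjoin A {algebraMap k' (bc k' K A) η} := by
      rw [← hθ y]
      have h3 := (Polynomial.aeval
        (⟨_, h1⟩ : Algebra.adjoin A {algebraMap k' (bc k' K A) η}) (h y)).2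
      rwa [Polynomial.aeval_subalgebra_coe] at h3
    exact h2
  · have hfree : Module.Free A (Algebra.adjoin A {algebraMap k' (bc k' K A) η}) :=
      Module.Free.of_basis (Algebra.adjoin.powerBasis' hint).basis
    exact (inferInstance : Module.Flat A (Algebra.adjoin A {algebraMap k' (bc k' K A) η}))

omit [Algebra.IsSeparable k k'] in
theorem bc_noetherian {A : Subalgebra k F} (hA : A.FG) : IsNoetherianRing (bc k' K A) := by
  have : Algebra.FiniteType k' (bc k' K A) := (Subalgebra.fg_iff_finiteType _).1 (bc_fg hA)
  exact Algebra.FiniteType.isNoetherianRing k' _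

/-- **Charts after an extension of the field of constants.** -/
theorem chart_bc_aux (hK : ∀ x : K, x ∈ Algebra.adjoin F (Set.range (algebraMap k' K)))
    {A : Subalgebra k F} (hA : Chart A) : Chart (bc k' K A) ∧
      ∀ P : Ideal (bc k' K A), P.IsPrime →
        P.height = (P.comap (algebraMap A (bc k' K A))).height := by
  have hreg : IsRegularRing A := hA.regular
  have hic : IsIntegrallyClosed A := isIntegrallyClosed_of_regular hA.height
  have hfaith := bc_faithful (k' := k') (K := K) A
  have hint := bc_isIntegral (k' := k') (K := K) A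
  have hnoeth : IsNoetherianRing (bc k' K A) := bc_noetherian hA.fg
  have hun := bc_unramified (k' := k') (K := K) A
  refine ⟨⟨bc_fg hA.fg, bc_frac hK hA.frac, isRegularRing_of_unramified (R := A) hun, ?_⟩, ?_⟩
  · intro m hm
    rw [height_eq_of_unramified (R := A) hun m]
    exact hA.height _ (Ideal.isMaximal_comap_of_isIntegral_of_isMaximal m)
  · intro P hP
    exact height_eq_of_unramified (R := A) hun P

end

end Pool.Agent.Lib.MP_b197b4_ntKR

namespace Pool.Agent.Lib.MP_b197b4_ntKD

open Pool.Agent.Lib.MP_b197b4_ntK Pool.Agent.Lib.MP_b197b4_ntKR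

variable {k k' F K : Type} [Field k] [Field k'] [Field F] [Field K] [Algebra k k'] [Algebra k F]
  [Algebra k' K] [Algebra F K]

theorem isIntegrallyClosed_chart {A : Subalgebra k F} (hA : Chart A) : IsIntegrallyClosed A := by
  have hreg : IsRegularRing A := hA.regular
  exact isIntegrallyClosed_of_regular hA.height

/-- `k' A` is integral over `A`. -/
theorem BC.isIntegral (h : BC k k' F K) (A : Subalgebra k F) :
    @Algebra.IsIntegral A (bc k' K A) _ _ (bcAlg k' K A) := by
  have := h.sep
  let _ : Algebra k K := ((algebraMap k' K).comp (algebraMap k k')).toAlgebra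
  have : IsScalarTower k k' K := IsScalarTower.of_algebraMap_eq fun _ => rfl
  have : IsScalarTower k F K := IsScalarTower.of_algebraMap_eq fun c => h.comm c
  exact bc_isIntegral A

/-- `k' A` is flat over `A`. -/
theorem BC.flat (h : BC k k' F K) {A : Subalgebra k F} (hA : Chart A) :
    @Module.Flat A (bc k' K A) _ _ (bcAlg k' K A).toModule := by
  have := h.sep
  let _ : Algebra k K := ((algebraMap k' K).comp (algebraMap k k')).toAlgebra
  have : IsScalarTower k k' K := IsScalarTower.of_algebraMap_eq fun _ => rfl
  have : IsScalarTower k F K := IsScalarTower.of_algebraMap_eq fun c => h.comm c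
  exact bc_flat (isIntegrallyClosed_chart hA)

/-- `k' A` is unramified over `A`. -/
theorem BC.unramified (h : BC k k' F K) (A : Subalgebra k F) (P : Ideal (bc k' K A))
    (hP : P.IsPrime) (y : bc k' K A) (hy : y ∈ P) : ∃ s : bc k' K A, s ∉ P ∧
      s * y ∈ (P.comap (bcMap k' K A)).map (bcMap k' K A) := by
  have := h.sep
  let _ : Algebra k K := ((algebraMap k' K).comp (algebraMap k k')).toAlgebra
  have : IsScalarTower k k' K := IsScalarTower.of_algebraMap_eq fun _ => rfl
  have : IsScalarTower k F K := IsScalarTower.of_algebraMap_eq fun c => h.comm c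
  exact bc_unramified A P y hy

/-- **The chart over the larger field of constants.** -/
theorem chart_bc (h : BC k k' F K) {A : Subalgebra k F} (hA : Chart A) : Chart (bc k' K A) := by
  have := h.sep
  let _ : Algebra k K := ((algebraMap k' K).comp (algebraMap k k')).toAlgebra
  have : IsScalarTower k k' K := IsScalarTower.of_algebraMap_eq fun _ => rfl
  have : IsScalarTower k F K := IsScalarTower.of_algebraMap_eq fun c => h.comm c
  exact (chart_bc_aux h.gen hA).1

theorem height_bc (h : BC k k' F K) {A : Subalgebra k F} (hA : Chart A) (P : Ideal (bc k' K A))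
    (hP : P.IsPrime) : P.height = (P.comap (bcMap k' K A)).height := by
  have := h.sep
  let _ : Algebra k K := ((algebraMap k' K).comp (algebraMap k k')).toAlgebra
  have : IsScalarTower k k' K := IsScalarTower.of_algebraMap_eq fun _ => rfl
  have : IsScalarTower k F K := IsScalarTower.of_algebraMap_eq fun c => h.comm c
  exact (chart_bc_aux h.gen hA).2 P hP

end Pool.Agent.Lib.MP_b197b4_ntKD
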