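import Pool.Agent.Lib.MP_b197b4_ntK.Pts

/-!
# MP_b197b4_nt, project K1: intersection numbers at a point by lengths

For two elements `x`, `y` of the local ring `O` without common prime factor the length of
`O / (x, y)` is the sum over the curves `V` through the point of the multiplicity of `V` in `x` times
the order of `y` on `V`.
-/

set_option autoImplicit false

namespace Pool.Agent.Lib.MP_b197b4_ntKR

open IsLocalRing Pool.Agent.K1 Pool.Agent.Lib.MP_b197b4_ntK

section

variable {F : Type} [Field F] {O : Subring F}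

theorem len2_prime_mul_left (hO : Loc2 O) {p a y : O} (hp : Prime p) (hpy : ¬ p ∣ y) :
    len2 (p * a) y = len2 p y + len2 a y := by
  have := hO.ufd
  rw [len2_comm (p * a) y, mul_comm p a, len2_comm p y, len2_comm a y,
    add_comm (len2 y p) (len2 y a)]
  apply len2_mul_of_dvd
  intro b hb
  have h1 : IsRelPrime p y := hp.irreducible.isRelPrime_iff_not_dvd.2 hpy
  exact h1.symm.dvd_of_dvd_mul_left hb

/-- The sum over the curves through the point. -/
noncomputable def curveSum (O : Subring F) (x y : O) : ℤ :=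
  ∑ᶠ (V) (_ : V ∈ CurvesAt O), ord V (x : F) * lenAt O V (res V (y : F))

theorem finite_curveSum (hO : Loc2 O) {x : O} (hx : x ≠ 0) (y : O) :
    (CurvesAt O ∩ Function.support fun V =>
      ord V (x : F) * lenAt O V (res V (y : F))).Finite := by
  have hx0 : (x : F) ≠ 0 := fun h => hx (Subtype.ext h)
  apply Set.Finite.subset (finite_ord hO hx0)
  rintro V ⟨hV, h⟩
  refine ⟨hV, fun h1 => h ?_⟩
  change ord V (x : F) * lenAt O V (res V (y : F)) = 0
  rw [h1, zero_mul]

theorem curveSum_mul (hO : Loc2 O) {x x' : O} (hx : x ≠ 0) (hx' : x' ≠ 0) (y : O) :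
    curveSum O (x * x') y = curveSum O x y + curveSum O x' y := by
  have hx0 : (x : F) ≠ 0 := fun h => hx (Subtype.ext h)
  have hx0' : (x' : F) ≠ 0 := fun h => hx' (Subtype.ext h)
  unfold curveSum
  rw [← finsum_mem_add_distrib' (finite_curveSum hO hx y) (finite_curveSum hO hx' y)]
  apply finsum_mem_congr rfl
  intro V hV
  push_cast
  rw [ord_mul hV.1 hx0 hx0', add_mul]

theorem curveSum_unit {x : O} (hx : IsUnit x) (y : O) : curveSum O x y = 0 := by
  unfold curveSum
  apply finsum_mem_eq_zero_of_forall_eq_zero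
  intro V hV
  have hx0 : (x : F) ≠ 0 := by
    intro h
    have h1 := CurvesAt.isUnit hV hx
    rw [h, map_zero] at h1
    exact zero_ne_one h1
  rw [(ord_eq_zero_iff hV.1 hx0).2 (CurvesAt.isUnit hV hx), zero_mul]

theorem curveSum_prime (hO : Loc2 O) {p : O} (hp : Prime p) {y : O} (hpy : ¬ p ∣ y) :
    curveSum O p y = ((len2 p y).toNat : ℤ) := by
  have hV := locPrime_mem hO hp
  have hlt := locPrime_val_lt hO hp
  have hy := locPrime_val_one hO hp hpy
  have h1 : curveSum O p y = ord (locPrime hO hp) (p : F) *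
      lenAt O (locPrime hO hp) (res (locPrime hO hp) (y : F)) := by
    unfold curveSum
    rw [← finsum_mem_singleton (f := fun V : ValuationSubring F =>
      ord V (p : F) * lenAt O V (res V (y : F))) (a := locPrime hO hp)]
    apply finsum_mem_inter_support_eq
    ext V
    constructor
    · rintro ⟨hV', h⟩
      refine ⟨?_, h⟩
      rcases CurvesAt.lt_or_eq hV' p with h3 | h3
      · exact CurvesAt.unique hV' hV hp h3 hlt
      · exfalso
        apply h
        have hp0 : (p : F) ≠ 0 := fun h => hp.ne_zero (Subtype.ext h)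
        change ord V (p : F) * lenAt O V (res V (y : F)) = 0
        rw [(ord_eq_zero_iff hV'.1 hp0).2 h3, zero_mul]
    · rintro ⟨hV', h⟩
      refine ⟨?_, h⟩
      rw [hV']
      exact hV
  rw [h1, ord_prime hp hV hlt, one_mul, lenAt_res hO hV hy, lenO_eq hV hp hlt]

/-- **The length of `O / (x, y)` is the sum over the curves through the point of the multiplicities
in `x` times the orders of `y`.** -/
theorem len_sum (hO : Loc2 O) {x y : O} (hx : x ≠ 0)
    (hxy : ∀ p : O, Prime p → p ∣ x → ¬ p ∣ y) :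
    len2 x y ≠ ⊤ ∧ ((len2 x y).toNat : ℤ) =
      ∑ᶠ (V) (_ : V ∈ CurvesAt O), ord V (x : F) * lenAt O V (res V (y : F)) := by
  have := hO.ufd
  have := hO.noeth
  change _ ∧ _ = curveSum O x y
  induction x using UniqueFactorizationMonoid.induction_on_prime with
  | h₁ => exact absurd rfl hx
  | h₂ u hu =>
    have h1 : len2 u y = 0 := by rw [len2_comm, len2_of_isUnit hu]
    rw [h1, curveSum_unit hu]
    exact ⟨by simp, rfl⟩
  | h₃ a p ha hp ih =>
    have hpy : ¬ p ∣ y := hxy p hp (dvd_mul_right p a)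
    obtain ⟨h1, h2⟩ := ih ha fun q hq hqa => hxy q hq (hqa.mul_left p)
    have h3 := len2_prime_ne_top hO.dim hp hpy
    rw [len2_prime_mul_left hO hp hpy, curveSum_mul hO hp.ne_zero ha, curveSum_prime hO hp hpy,
      ← h2, ENat.toNat_add h3 h1]
    refine ⟨?_, by push_cast; rfl⟩
    obtain ⟨m, hm⟩ := ENat.ne_top_iff_exists.1 h3
    obtain ⟨n, hn⟩ := ENat.ne_top_iff_exists.1 h1
    rw [← hm, ← hn]
    exact_mod_cast ENat.natCast_ne_top (m + n)

/-- the same, the condition in terms of the curves -/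
theorem len_sum' (hO : Loc2 O) {x y : O} (hx : x ≠ 0)
    (hxy : ∀ V ∈ CurvesAt O, V.valuation (x : F) < 1 → V.valuation (y : F) = 1) :
    len2 x y ≠ ⊤ ∧ ((len2 x y).toNat : ℤ) =
      ∑ᶠ (V) (_ : V ∈ CurvesAt O), ord V (x : F) * lenAt O V (res V (y : F)) := by
  refine len_sum hO hx fun p hp hpx hpy => ?_
  have hV := locPrime_mem hO hp
  have hlt := locPrime_val_lt hO hp
  exact (CurvesAt.lt_of_dvd hV hlt hpy).ne (hxy _ hV (CurvesAt.lt_of_dvd hV hlt hpx))

end

section

variable {k : Type} {F : Type} [Field k] [Field F] [Algebra k F]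

/-- **The intersection number at a closed point of a surface.** -/
theorem len_sum_points {M : Set (Subalgebra k F)} (hch : ∀ A ∈ M, Chart A) (hM : Sep M)
    {O : Subring F} (hO : O ∈ Points M) {x y : O} (hx : x ≠ 0)
    (hxy : ∀ V ∈ Curves M, (O : Set F) ⊆ V → V.valuation (x : F) < 1 →
      V.valuation (y : F) = 1) :
    Module.length O (O ⧸ Ideal.span {x, y}) ≠ ⊤ ∧
    ((Module.length O (O ⧸ Ideal.span {x, y})).toNat : ℤ) =
      ∑ᶠ (V) (_ : V ∈ Curves M ∧ (O : Set F) ⊆ V),
        ord V (x : F) * len (curveLoc O V) (res V (y : F)) := by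
  have hO2 := loc2_of_points hch hO
  have hx0 : (x : F) ≠ 0 := fun h => hx (Subtype.ext h)
  obtain ⟨h1, h2⟩ := len_sum' hO2 (x := x) (y := y) hx fun V hV h =>
    hxy V ((curves_point hM hO V).2 hV).1 ((curves_point hM hO V).2 hV).2 h
  refine ⟨h1, ?_⟩
  change ((len2 x y).toNat : ℤ) = _
  rw [h2]
  have h3 : {V | V ∈ Curves M ∧ (O : Set F) ⊆ V} = CurvesAt O := by
    ext V
    exact curves_point hM hO V
  have h4 : (∑ᶠ (V) (_ : V ∈ Curves M ∧ (O : Set F) ⊆ V),
      ord V (x : F) * len (curveLoc O V) (res V (y : F))) =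
      ∑ᶠ (V) (_ : V ∈ CurvesAt O), ord V (x : F) * len (curveLoc O V) (res V (y : F)) := by
    rw [← h3]
    rfl
  rw [h4]
  apply finsum_mem_congr rfl
  intro V hV
  rcases CurvesAt.lt_or_eq hV x with h5 | h5
  · have h6 : V.valuation (y : F) = 1 :=
      hxy V ((curves_point hM hO V).2 hV).1 ((curves_point hM hO V).2 hV).2 h5
    rw [len_curveLoc hO2 hV ((res_ne_zero_iff (mem_of_val_one h6)).2 h6)]
  · rw [(ord_eq_zero_iff hV.1 hx0).2 h5, zero_mul, zero_mul]

end

end Pool.Agent.Lib.MP_b197b4_ntKR
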